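import Mathlib
import Pool.Agent.LeoG.UpStmts

/-!
# CRU: crude uniform bound for the number of normalised forms
-/

set_option autoImplicit false

open NumberField IsDedekindDomain Module MeasureTheory Filter Topology

namespace Pool.Agent.LeoG.H25

open Pool.Agent.LeoK Pool.Agent.LeoG

/-- dyadic choice -/
lemma dyadic (g G : ℝ) (hg : 0 < g) (hG : g ≤ G) :
    ∃ i : ℕ, G / 2 ^ (i + 1) ≤ g ∧ g ≤ 2 * (G / 2 ^ (i + 1)) := by
  obtain ⟨i, h1, h2⟩ := exists_nat_pow_near (x := G / g) (y := 2)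
    ((one_le_div hg).2 hG) one_lt_two
  refine ⟨i, ?_, ?_⟩
  · rw [div_le_iff₀ (by positivity)]
    rw [div_lt_iff₀ hg] at h2
    linarith [h2]
  · rw [le_div_iff₀ hg] at h1
    rw [pow_succ]
    have h3 : 2 * (G / (2 ^ i * 2)) = G / 2 ^ i := by field_simp
    rw [h3, le_div_iff₀ (by positivity)]
    linarith [h1]

lemma geo (N : ℕ) : ∑ i ∈ Finset.range N, (1 / (2 : ℝ) ^ (i + 1)) ≤ 1 := by
  have h := sum_geometric_two_le N
  have h2 : ∑ i ∈ Finset.range N, (1 / (2 : ℝ) ^ (i + 1)) =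
      (1 / 2) * ∑ i ∈ Finset.range N, (1 / (2 : ℝ)) ^ i := by
    rw [Finset.mul_sum]
    refine Finset.sum_congr rfl fun i _ => ?_
    rw [pow_succ, one_div_pow]
    field_simp
  rw [h2]
  linarith

/-- eventually small -/
lemma ev_small (G δ : ℝ) (hδ : 0 < δ) : ∃ N : ℕ, ∀ i : ℕ, N ≤ i → G / 2 ^ (i + 1) < δ := by
  have h1 : Tendsto (fun i : ℕ => G / 2 ^ (i + 1)) atTop (𝓝 0) := by
    have h2 : Tendsto (fun i : ℕ => G * (1 / 2 : ℝ) ^ (i + 1)) atTop (𝓝 (G * 0)) :=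
      ((tendsto_pow_atTop_nhds_zero_of_lt_one (by norm_num) (by norm_num)).comp
        (tendsto_add_atTop_nat 1)).const_mul G
    rw [mul_zero] at h2
    refine h2.congr fun i => ?_
    rw [one_div_pow]
    ring
  have h3 := h1.eventually (gt_mem_nhds hδ)
  exact eventually_atTop.1 h3

theorem cru (hcel : LeoG.CelStmt) (hcon : LeoK.ConStmt) (hnor : LeoK.NorStmt) : LeoG.CruStmt := by
  intro k _ _ hk Φ R T₀ hR hT₀
  obtain ⟨hcard, -, -, hcF, hiv, -⟩ := hcon k hk Φ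
  obtain ⟨-, -, hnorm⟩ := hnor k hk
  set n := finrank ℚ k with hn
  have hn0 : 0 < n := finrank_pos
  have hnR : (0 : ℝ) < (n : ℝ) := by exact_mod_cast hn0
  have hξ₀ : 0 < T₀ ^ (1 / n : ℝ) := Real.rpow_pos_of_pos hT₀ _
  obtain ⟨C, hC, hcell⟩ := hcel k hk Φ.cF (3 * R) (T₀ ^ (1 / n : ℝ)) hcF (by positivity) hξ₀
  refine ⟨C, hC, ?_⟩
  intro Z T hZ hT hTT
  have hZ0 : 0 < Z := by linarith
  set Z' : ℝ := Z ^ (1 / n : ℝ) with hZ'
  set T' : ℝ := T ^ (1 / n : ℝ) with hT'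
  have hZ'0 : 0 < Z' := Real.rpow_pos_of_pos hZ0 _
  have hT'0 : 0 < T' := Real.rpow_pos_of_pos hT _
  have hZn : Z' ^ n = Z := by
    rw [hZ', ← Real.rpow_natCast, ← Real.rpow_mul hZ0.le]
    rw [one_div_mul_cancel hnR.ne', Real.rpow_one]
  have hTn : T' ^ n = T := by
    rw [hT', ← Real.rpow_natCast, ← Real.rpow_mul hT.le]
    rw [one_div_mul_cancel hnR.ne', Real.rpow_one]
  have hT'le : T' ≤ T₀ ^ (1 / n : ℝ) := Real.rpow_le_rpow hT.le hTT (by positivity)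
  -- the cells
  set Mi : ℕ → ℝ := fun i => Z' / 2 ^ (i + 1) with hMi
  set Xj : ℕ → ℝ := fun j => T' / 2 ^ (j + 1) with hXj
  have hMi0 : ∀ i, 0 < Mi i := fun i => by rw [hMi]; positivity
  have hXj0 : ∀ i, 0 < Xj i := fun i => by rw [hXj]; positivity
  have hMiZ : ∀ i, Mi i ≤ Z' := fun i => by
    rw [hMi]
    exact div_le_self hZ'0.le (one_le_pow₀ (by norm_num))
  have hXjT : ∀ i, Xj i ≤ T' := fun i => by
    rw [hXj]
    exact div_le_self hT'0.le (one_le_pow₀ (by norm_num))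
  obtain ⟨N₁, hN₁⟩ := ev_small Z' (1 / 2) (by norm_num)
  -- small xi
  have hδ : ∃ δ : ℝ, 0 < δ ∧ ∀ ξ M : ℝ, 0 < ξ → ξ < δ → 0 < M → M ≤ Z' →
      C * (ξ ^ (3 / 2 : ℝ) * M ^ (1 / 4 : ℝ)) < 1 := by
    have hZ4 : 0 < Z' ^ (1 / 4 : ℝ) := Real.rpow_pos_of_pos hZ'0 _
    refine ⟨(1 / (C * Z' ^ (1 / 4 : ℝ))) ^ (2 / 3 : ℝ), Real.rpow_pos_of_pos (by positivity) _, ?_⟩
    intro ξ M hξ hξδ hM hMZ
    have h1 : ξ ^ (3 / 2 : ℝ) < 1 / (C * Z' ^ (1 / 4 : ℝ)) := by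
      have h2 := Real.rpow_lt_rpow hξ.le hξδ (show (0 : ℝ) < 3 / 2 by norm_num)
      rw [← Real.rpow_mul (by positivity)] at h2
      norm_num at h2 ⊢
      exact h2
    have h3 : M ^ (1 / 4 : ℝ) ≤ Z' ^ (1 / 4 : ℝ) := Real.rpow_le_rpow hM.le hMZ (by norm_num)
    have h4 : 0 < ξ ^ (3 / 2 : ℝ) := Real.rpow_pos_of_pos hξ _
    calc C * (ξ ^ (3 / 2 : ℝ) * M ^ (1 / 4 : ℝ))
        ≤ C * (ξ ^ (3 / 2 : ℝ) * Z' ^ (1 / 4 : ℝ)) := by gcongr
      _ < C * ((1 / (C * Z' ^ (1 / 4 : ℝ))) * Z' ^ (1 / 4 : ℝ)) := by gcongr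
      _ = 1 := by field_simp
  obtain ⟨δ, hδ0, hδ1⟩ := hδ
  obtain ⟨N₂, hN₂⟩ := ev_small T' δ hδ0
  -- the set of one pair of indices
  classical
  set cl : ℕ × ℕ → Set (Q4 (𝓞 k)) := fun ij =>
    if 1 / 2 ≤ Mi ij.1 then gcell (k := k) Φ.cF (3 * R) (Mi ij.1) (Xj ij.2) else ∅ with hcl
  have hclfin : ∀ ij, (cl ij).Finite := by
    intro ij
    simp only [hcl]
    split_ifs with h
    · exact (hcell _ _ h (hXj0 _) ((hXjT _).trans hT'le)).1
    · exact Set.finite_empty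
  have hclcard : ∀ ij, ((cl ij).ncard : ℝ) ≤
      C * T * Z * ((1 / 2 ^ (ij.1 + 1)) * (1 / 2 ^ (ij.2 + 1))) := by
    intro ij
    simp only [hcl]
    split_ifs with h
    · refine ((hcell _ _ h (hXj0 _) ((hXjT _).trans hT'le)).2.1).trans ?_
      have e1 : Xj ij.2 ^ n ≤ T * (1 / 2 ^ (ij.2 + 1)) := by
        simp only [hXj]
        rw [div_pow, hTn, mul_one_div]
        gcongr
        exact le_self_pow₀ (one_le_pow₀ (by norm_num)) hn0.ne'
      have e2 : Mi ij.1 ^ n ≤ Z * (1 / 2 ^ (ij.1 + 1)) := by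
        simp only [hMi]
        rw [div_pow, hZn, mul_one_div]
        gcongr
        exact le_self_pow₀ (one_le_pow₀ (by norm_num)) hn0.ne'
      calc C * Xj ij.2 ^ n * Mi ij.1 ^ n
          ≤ C * (T * (1 / 2 ^ (ij.2 + 1))) * (Z * (1 / 2 ^ (ij.1 + 1))) := by
            gcongr
        _ = _ := by ring
    · rw [Set.ncard_empty]
      simp only [Nat.cast_zero]
      positivity
  set I : Finset (ℕ × ℕ) := Finset.range N₁ ×ˢ Finset.range N₂ with hI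
  have hsub : {v : Q4 (𝓞 k) | GReg Φ {x | ∀ s, |x s| ≤ R} Z T v} ⊆ ⋃ ij ∈ I, cl ij := by
    intro v hv
    have hv' : GReg Φ {x | ∀ s, |x s| ≤ R} Z T v := hv
    have hMpos : ∀ s : Sg k, 0 < s ((mm v : 𝓞 k) : k) := fun s => Φ.pos _ hv'.mF s
    have hXpos : ∀ s : Sg k, 0 < hg v 1 0 s :=
      fun s => Φ.pos _ hv'.xF s
    have hPM : 0 < ∏ s : Sg k, s ((mm v : 𝓞 k) : k) := Finset.prod_pos fun s _ => hMpos s
    have hPX : 0 < ∏ s : Sg k, hg v 1 0 s :=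
      Finset.prod_pos fun s _ => hXpos s
    have hne : Nonempty (Sg k) := by
      rw [← Fintype.card_pos_iff, hcard]
      exact hn0
    obtain ⟨s₀⟩ := hne
    have hqM : mm v ≠ 0 := by
      intro h0
      have := hMpos s₀
      rw [h0] at this
      simp at this
    have hge1 : 1 ≤ ∏ s : Sg k, s ((mm v : 𝓞 k) : k) := by
      have h1 := (hnorm (mm v) hqM).1
      have h2 : ∏ s : Sg k, |s ((mm v : 𝓞 k) : k)| = ∏ s : Sg k, s ((mm v : 𝓞 k) : k) :=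
        Finset.prod_congr rfl fun s _ => abs_of_pos (hMpos s)
      rwa [h2] at h1
    set μ : ℝ := (∏ s : Sg k, s ((mm v : 𝓞 k) : k)) ^ (1 / n : ℝ) with hμ
    set χ : ℝ := (∏ s : Sg k, hg v 1 0 s) ^
      (1 / n : ℝ) with hχ
    have hμ1 : 1 ≤ μ := Real.one_le_rpow hge1 (by positivity)
    have hμZ : μ ≤ Z' := Real.rpow_le_rpow hPM.le hv'.mZ (by positivity)
    have hχ0 : 0 < χ := Real.rpow_pos_of_pos hPX _
    have hχT : χ ≤ T' := Real.rpow_le_rpow hPX.le hv'.xT (by positivity)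
    obtain ⟨i, hi1, hi2⟩ := dyadic μ Z' (by linarith) hμZ
    obtain ⟨j, hj1, hj2⟩ := dyadic χ T' hχ0 hχT
    have hMi12 : 1 / 2 ≤ Mi i := by
      simp only [hMi]
      linarith
    have hivM := hiv _ hv'.mF
    have hivX := hiv _ hv'.xF
    have hcF0 : 0 < Φ.cF := by linarith
    have hmem : v ∈ gcell (k := k) Φ.cF (3 * R) (Mi i) (Xj j) := by
      refine ⟨hv'.ane, ?_, hMpos, ?_, ?_⟩
      · intro s
        have h1 : |s (v 1 : k) / (3 * s (v 0 : k))| ≤ R := hv'.bG s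
        have h2 : s (v 0 : k) ≠ 0 := by
          rw [Ne, map_eq_zero]
          intro h0
          exact hv'.ane (by exact_mod_cast h0)
        have h3 : (3 : ℝ) * s (v 0 : k) ≠ 0 := mul_ne_zero (by norm_num) h2
        rw [abs_div, div_le_iff₀ (abs_pos.2 h3), abs_mul, abs_of_pos (show (0 : ℝ) < 3 by norm_num)] at h1
        linarith
      · intro s
        refine ⟨?_, ?_⟩
        · exact hi1.trans (hivM s).2
        · refine ((hivM s).1).trans ?_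
          have : Φ.cF * μ ≤ Φ.cF * (2 * Mi i) := mul_le_mul_of_nonneg_left hi2 hcF0.le
          calc Φ.cF * μ ≤ Φ.cF * (2 * Mi i) := this
            _ = 2 * Φ.cF * Mi i := by ring
      · intro s
        refine ⟨?_, ?_⟩
        · exact hj1.trans (hivX s).2
        · refine ((hivX s).1).trans ?_
          have : Φ.cF * χ ≤ Φ.cF * (2 * Xj j) := mul_le_mul_of_nonneg_left hj2 hcF0.le
          calc Φ.cF * χ ≤ Φ.cF * (2 * Xj j) := this
            _ = 2 * Φ.cF * Xj j := by ring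
    have hne1 := (hcell _ _ hMi12 (hXj0 j) ((hXjT _).trans hT'le)).2.2 ⟨v, hmem⟩
    have hiN : i < N₁ := by
      by_contra hcon'
      have := hN₁ i (not_lt.1 hcon')
      simp only [hMi] at hMi12
      linarith
    have hjN : j < N₂ := by
      by_contra hcon'
      have h1 := hN₂ j (not_lt.1 hcon')
      have h2 := hδ1 (Xj j) (Mi i) (hXj0 j) h1 (hMi0 i) (hMiZ i)
      linarith
    refine Set.mem_iUnion₂.2 ⟨(i, j), ?_, ?_⟩
    · rw [hI, Finset.mem_product]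
      exact ⟨Finset.mem_range.2 hiN, Finset.mem_range.2 hjN⟩
    · simp only [hcl]
      rw [if_pos hMi12]
      exact hmem
  have hfin : (⋃ ij ∈ I, cl ij).Finite :=
    Set.Finite.biUnion I.finite_toSet fun ij _ => hclfin ij
  refine ⟨hfin.subset hsub, ?_⟩
  have h1 : ({v : Q4 (𝓞 k) | GReg Φ {x | ∀ s, |x s| ≤ R} Z T v}.ncard : ℝ) ≤
      ((⋃ ij ∈ I, cl ij).ncard : ℝ) := by
    exact_mod_cast Set.ncard_le_ncard hsub hfin
  have h2 : ((⋃ ij ∈ I, cl ij).ncard : ℝ) ≤ ∑ ij ∈ I, ((cl ij).ncard : ℝ) := by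
    exact_mod_cast I.set_ncard_biUnion_le cl
  have h3 : ∑ ij ∈ I, ((cl ij).ncard : ℝ) ≤
      ∑ ij ∈ I, C * T * Z * ((1 / 2 ^ (ij.1 + 1)) * (1 / 2 ^ (ij.2 + 1))) :=
    Finset.sum_le_sum fun ij _ => hclcard ij
  have h4 : ∑ ij ∈ I, C * T * Z * ((1 / 2 ^ (ij.1 + 1)) * (1 / 2 ^ (ij.2 + 1))) ≤ C * T * Z := by
    rw [← Finset.mul_sum, hI, Finset.sum_product]
    have h5 : ∑ x ∈ Finset.range N₁, ∑ y ∈ Finset.range N₂,
        ((1 / 2 ^ (x + 1) : ℝ) * (1 / 2 ^ (y + 1))) =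
        (∑ x ∈ Finset.range N₁, (1 / 2 ^ (x + 1) : ℝ)) *
          ∑ y ∈ Finset.range N₂, (1 / 2 ^ (y + 1) : ℝ) := by
      rw [Finset.sum_mul_sum]
    rw [h5]
    have h6 := geo N₁
    have h7 := geo N₂
    have h8 : 0 ≤ ∑ y ∈ Finset.range N₂, (1 / 2 ^ (y + 1) : ℝ) :=
      Finset.sum_nonneg fun y _ => by positivity
    have h9 : (∑ x ∈ Finset.range N₁, (1 / 2 ^ (x + 1) : ℝ)) *
          ∑ y ∈ Finset.range N₂, (1 / 2 ^ (y + 1) : ℝ) ≤ 1 * 1 :=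
      mul_le_mul h6 h7 h8 zero_le_one
    calc C * T * Z * ((∑ x ∈ Finset.range N₁, (1 / 2 ^ (x + 1) : ℝ)) *
          ∑ y ∈ Finset.range N₂, (1 / 2 ^ (y + 1) : ℝ)) ≤ C * T * Z * (1 * 1) := by
          gcongr
      _ = C * T * Z := by ring
  linarith

end Pool.Agent.LeoG.H25
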